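import Pool.Agent.L7h81.DN.Main
import Pool.Agent.L7h81.DN.Bas

/-!
# Deligne's conjecture with nonzero values for the rational representations of the Galois groups of many class fields

`K` is an imaginary quadratic field of class number one, and `E_i : y² = x³ + a_i x + b_i`, `i = 1, …, m`, are
elliptic curves over `K` (not necessarily defined over `ℚ`, and without complex multiplication in general), which
belong to Bianchi newforms `f_i` of weight two and levels `(N_i)`.  Let `F/K` be a finite abelian extension, and let `ρ` be a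
rational representation of `Gal(F/K)` on `V = ℚ^k`.  The motive `N_i(ρ) = Res_{K/ℚ} (h¹(E_i)(1) ⊗ V)` over `ℚ` is pure of
weight `-1` and rank `4k`, with rational coefficients, and critical.  Its realizations are:

* `L(N_i(ρ), s) = ∏_v det(P_v(N(v)^(-1-s) φ_v) | V^{I_v})⁻¹`, where `P_v` is the local polynomial of `E_i` at the place `v` of
  `K` and `φ_v` the Frobenius automorphism on the invariants `V^{I_v}` of the inertia group (`E_i` has good
  reduction at the places which ramify in `F`);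
* `N_i(ρ)_B^+ = H₁(E_i^σ(ℂ), ℚ) ⊗ V`, of dimension `2k`;
* `N_i(ρ)_dR^+ = Lie(E_i) ⊗_K (V ⊗ F)^Gal(F/K)`, of dimension `2k` over `ℚ` (Galois descent).

So Deligne's period `c⁺(N_i(ρ))` is `det(B)/det(D)`, with the matrix `B` of the coordinates of `γ_j ⊗ e_p`, that is of the
periods `ω₁`, `ω₂` of `dx/(2y)` and of their conjugates, and the matrix `D` of the coordinates of a rational basis of `(V ⊗ F)^Gal(F/K)`
(see `OneConstantForAllTwists`).

Theorem.  Suppose that `L(E_i/K, 1) ≠ 0` for all `i`, let `l` be any prime number and `n`, `r` natural numbers.  There is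
`V` such that for every group `H` (finite or infinite, as sparse as one likes) of characters of `K` of order dividing `l ^ n`
whose conductors are products of different places `v` not dividing `2 (4a_i³ + 27b_i²)`, with `#E_i(𝓞/v)` prime to `l`, a
proportion at least `2 ^ (-V)` of the `r`-tuples in `H` satisfies: for all class fields `F` of characters in the group
generated by the tuple, all rational representations `ρ` of `Gal(F/K)`, of any dimension `k`, and all `i`,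

`L(N_i(ρ), 0) ≠ 0` and `L(N_i(ρ), 0) / c⁺(N_i(ρ)) = q (L(N_i(1), 0) / c⁺(N_i(1)))^k`, `q ∈ ℚˣ`,

where `N_i(1) = Res_{K/ℚ} h¹(E_i)(1)`.  So Deligne's conjecture for `Res_{K/ℚ} h¹(E_i)(1)` implies
Deligne's conjecture, with a nonzero value, for all these motives `N_i(ρ)`.  Every infinite such `H` has an infinite subgroup
`H₀` such that this holds for all tuples in `H₀`, of any length.

For `E_i` defined over `ℚ` the `N_i(ρ)` contain the twists of `h¹(E_i)(1)` by the representations `Ind_K^ℚ ρ` of the Galois groups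
of non-abelian extensions of `ℚ` (dihedral and other ones).

The proof.  The value `L(N_i(ρ), 0)` is the product of the values `L(f_i ⊗ χ, 1)` for the characters `χ` of `ρ`.  The value for
a primitive character `χ` of `l`-power order is, up to a nonzero factor, `∑ conj χ(x) Φ(x/m)`, with the primitive `Φ` of the
differential of `f_i`; by the Hecke relations at the places of the conductor (where `#E_i(𝓞/v)` is prime to `l`) a congruence modulo a
prime above `l`, uniform in the number of places, compares these sums for different characters; the linear algebra of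
`BianchiUniformProportion` (MP_32c55d_nt) gives the correcting tuples.  The quotients are rational by the
theorem `OneConstantForAllTwists`.

The proof uses the library of `OneConstantForAllTwists` (helper15, helper23, helper50, helper53, helper60, helper65, helper82)
and that of `BianchiUniformProportion` (helper60, helper76).
-/

set_option autoImplicit false

open NumberField IsDedekindDomain Matrix WeierstrassCurve Filter Topology

namespace Pool.Agent.Results.MP_b696eb_nt.DeligneNonvanishing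

/-- `K` is an imaginary quadratic field, `σ` is one of its two embeddings in `ℂ`, and `δ` generates the
different of `K`: an `x ∈ K` is in `𝓞` if and only if `Tr(x y / δ) ∈ ℤ` for all `y ∈ 𝓞`. -/
structure IsFieldData (K : Type) [Field K] [NumberField K] (σ : K →+* ℂ) (δ : K) : Prop where
  quadratic : Module.finrank ℚ K = 2
  imaginary : ∃ x, (starRingEnd ℂ) (σ x) ≠ σ x
  different : ∀ x : K, (∃ a : 𝓞 K, (a : K) = x) ↔
    ∀ y : 𝓞 K, ∃ m : ℤ, Algebra.trace ℚ K (x * y / δ) = m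

/-- `h(y) = ∫_0^∞ exp(-1/v - y v) dv = 2 y^(-1/2) K₁(2 √y)`, with the Bessel function `K₁`. -/
noncomputable def bessel (y : ℝ) : ℝ := ∫ v in Set.Ioi (0 : ℝ), Real.exp (-(1 / v) - y * v)

/-- The additive character `e(z) = exp(2πi (z/δ + conj (z/δ)))` of `ℂ`, trivial on `𝓞`. -/
noncomputable def addChar (δ z : ℂ) : ℂ :=
  Complex.exp (2 * Real.pi * Complex.I * (z / δ + (starRingEnd ℂ) (z / δ)))

/-- The denominator `|c z + d|² + |c|² t²` of the action of the matrix `(a, b; c, d)` on the hyperbolic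
space `{(z, t) : z ∈ ℂ, t > 0}`. -/
noncomputable def den (c d z : ℂ) (t : ℝ) : ℝ := ‖c * z + d‖ ^ 2 + ‖c‖ ^ 2 * t ^ 2

/-- The first coordinate `((a z + b) conj (c z + d) + a conj(c) t²) / (|c z + d|² + |c|² t²)` of the image
of `(z, t)` under the matrix `(a, b; c, d)`. -/
noncomputable def actZ (a b c d z : ℂ) (t : ℝ) : ℂ :=
  ((a * z + b) * (starRingEnd ℂ) (c * z + d) + a * (starRingEnd ℂ) c * (t : ℂ) ^ 2) /
    (den c d z t : ℂ)

/-- The second coordinate, for a matrix of determinant one; in general it is `|ad - bc|` times this. -/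
noncomputable def actT (c d z : ℂ) (t : ℝ) : ℝ := t / den c d z t

section field
variable {K : Type} [Field K] [NumberField K]

/-- The function `Φ(z, t) = ∑_{x ∈ 𝓞} c((x)) t² h(N(x) (2πt/|δ|)²) e(x z)
  = (|δ|/π) ∑_{x ≠ 0} (c((x))/|x|) t K₁(4π|x|t/|δ|) e(x z)` on the hyperbolic space, with the coefficients `c`.
Up to a constant factor it is the primitive, zero at the cusp `∞`, of the harmonic differential of the
form of weight two with the Fourier coefficients `c`: its derivative by `t` is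
`-4 ∑_{x ≠ 0} c((x)) t K₀(4π|x|t/|δ|) e(x z)`. -/
noncomputable def primitive (σ : K →+* ℂ) (δ : K) (c : Ideal (𝓞 K) → ℂ) (z : ℂ) (t : ℝ) : ℂ :=
  ∑' x : 𝓞 K, c (Ideal.span {x}) * ((t ^ 2 * bessel (Ideal.absNorm (Ideal.span {x}) *
    (2 * Real.pi * t / ‖σ δ‖) ^ 2) : ℝ) : ℂ) * addChar (σ δ) (σ x * z)

/-- The group `Λ` generated by the values of the primitive `Φ` at the cusps `x/m`, `m ≠ 0` prime to the level (that is,
by the limits of `Φ(x/m, t)` for `t → 0`). -/
def Lam (σ : K →+* ℂ) (δ : K) (n : 𝓞 K) (c : Ideal (𝓞 K) → ℂ) : AddSubgroup ℂ :=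
  AddSubgroup.closure {z | ∃ x m : 𝓞 K, m ≠ 0 ∧ IsCoprime m n ∧
    Tendsto (fun t => primitive σ δ c (σ x / σ m) t) (𝓝[>] 0) (𝓝 z)}

/-- The numbers `c(I)` are the Hecke eigenvalues of a Bianchi newform `f` of weight two, level `(n)` and
trivial character over `K`, with rational eigenvalues: they satisfy `c(𝓞) = 1`, the (trivial) bound `c(I) = O(N(I))`
and the Hecke relations `c(v I) = c(v) c(I)` for `v ∤ I`, `c(v² I) = c(v) c(v I) - N(v) c(I)` for the primes `v ∤ n`, and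
`c(v I) = c(v) c(I)` for `v ∣ n`; the differential `dΦ` of the function `Φ` with the coefficients `c` is
invariant under `Γ₀(n)`, that is, `Φ(γ P) - Φ(P)` is a constant for every `γ ∈ Γ₀(n)`; `dΦ` is an
eigenform, with the eigenvalue `±1`, of the Fricke involution `W = (0, -1; n, 0)`; and the group `Λ` of the values of `Φ` at
cusps is cyclic (this is so for rational eigenvalues, by multiplicity one and the theorem of Manin, Drinfeld and
Kurčanov: the quotient of `H₁(Γ₀(n), cusps; ℤ)` which belongs to `f` has rank one). -/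
structure IsNewform (σ : K →+* ℂ) (δ : K) (n : 𝓞 K) (c : Ideal (𝓞 K) → ℂ) : Prop where
  level : n ≠ 0
  zero : c ⊥ = 0
  one : c ⊤ = 1
  bound : ∃ C : ℝ, ∀ I, ‖c I‖ ≤ C * Ideal.absNorm I
  good : ∀ v : HeightOneSpectrum (𝓞 K), n ∉ v.asIdeal → ∀ I,
    (¬ v.asIdeal ∣ I → c (v.asIdeal * I) = c v.asIdeal * c I) ∧
    c (v.asIdeal * (v.asIdeal * I)) = c v.asIdeal * c (v.asIdeal * I) -
      Ideal.absNorm v.asIdeal * c I
  bad : ∀ v : HeightOneSpectrum (𝓞 K), n ∈ v.asIdeal → ∀ I,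
    c (v.asIdeal * I) = c v.asIdeal * c I
  invariant : ∃ κ : SpecialLinearGroup (Fin 2) (𝓞 K) → ℂ,
    ∀ γ : SpecialLinearGroup (Fin 2) (𝓞 K), n ∣ γ.1 1 0 → ∀ (z : ℂ) (t : ℝ), 0 < t →
      primitive σ δ c (actZ (σ (γ.1 0 0)) (σ (γ.1 0 1)) (σ (γ.1 1 0)) (σ (γ.1 1 1)) z t)
        (actT (σ (γ.1 1 0)) (σ (γ.1 1 1)) z t) = primitive σ δ c z t + κ γ
  fricke : ∃ w κ : ℂ, w * w = 1 ∧ ∀ (z : ℂ) (t : ℝ), 0 < t →
    primitive σ δ c (actZ 0 (-1) (σ n) 0 z t) (‖σ n‖ * actT (σ n) 0 z t) =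
      -w * primitive σ δ c z t + κ
  cyclic : ∃ ω ∈ Lam σ δ n c, ∀ l ∈ Lam σ δ n c, ∃ j : ℤ, l = j * ω

/-- The curve `E : y² = x³ + a x + b` over `K`. -/
def curve (a b : K) : WeierstrassCurve K := ⟨0, 0, 0, a, b⟩

open Classical in
/-- `f` is the newform of `E : y² = x³ + a x + b`: the Euler factors of `f` and of `E` agree at all the places `v` of
`K`, that is, the local polynomial of `E` at `v` (Mathlib's `WeierstrassCurve.localPolynomial`) is
`1 - c(v) X + N(v) X²`, without the last term if `v ∣ n`. -/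
def IsNewformOf (a b n : 𝓞 K) (c : Ideal (𝓞 K) → ℂ) : Prop :=
  ∀ v : HeightOneSpectrum (𝓞 K),
    (((curve (a : K) (b : K)).baseChange (v.adicCompletion K)).localPolynomial
      (v.adicCompletionIntegers K)).map (Int.castRingHom ℂ) =
      1 - Polynomial.C (c v.asIdeal) * Polynomial.X +
        Polynomial.C (if n ∈ v.asIdeal then 0 else (Ideal.absNorm v.asIdeal : ℂ)) *
          Polynomial.X ^ 2

/-- The admissible places for one curve: `v ∤ 2 (4a³ + 27b²)`, and the number of the points of `E` over `𝓞/v` (with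
the point at infinity) is prime to `l`. -/
def Admissible (l : ℕ) (a b : 𝓞 K) (v : HeightOneSpectrum (𝓞 K)) : Prop :=
  2 * (4 * a ^ 3 + 27 * b ^ 2) ∉ v.asIdeal ∧
    ¬ l ∣ Nat.card {x : (𝓞 K ⧸ v.asIdeal) × (𝓞 K ⧸ v.asIdeal) //
      x.2 ^ 2 = x.1 ^ 3 + Ideal.Quotient.mk v.asIdeal a * x.1 + Ideal.Quotient.mk v.asIdeal b} + 1

/-- The families `c = (c_v)` of characters `c_v` of the groups `(𝓞/v)ˣ`.  The family with `c_v = 1` except for
the places `v` of a finite set stands for the character `∏ c_v` modulo the product of these places; if it is trivial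
on the units of `𝓞`, this is a character of (the ideals of) `K` of squarefree conductor. -/
abbrev Fam (K : Type) [Field K] [NumberField K] : Type :=
  (v : HeightOneSpectrum (𝓞 K)) → (𝓞 K ⧸ v.asIdeal)ˣ →* ℂˣ

open Classical in
/-- The set of the `v` with `c_v ≠ 1` (if it is finite). -/
noncomputable def supp (c : Fam K) : Finset (HeightOneSpectrum (𝓞 K)) :=
  if h : {v | c v ≠ 1}.Finite then h.toFinset else ∅

/-- The norm of the conductor. -/
noncomputable def conductorNorm (c : Fam K) : ℕ := ∏ v ∈ supp c, Ideal.absNorm v.asIdeal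

open Classical in
/-- The value of the character at `x`. -/
noncomputable def value (c : Fam K) (x : 𝓞 K) : ℂ :=
  ∏ v ∈ supp c, if h : IsUnit (Ideal.Quotient.mk v.asIdeal x) then (c v h.unit : ℂ) else 0

/-- `H` is a group of characters of `K` of order dividing `l ^ n`, of conductors which are products of different
places, admissible for all the curves. -/
structure IsCharGroup (l : ℕ) {m : ℕ} (a b : Fin m → 𝓞 K) (n : ℕ) (H : Subgroup (Fam K)) : Prop where
  pow : ∀ c ∈ H, c ^ (l ^ n) = 1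
  finite : ∀ c ∈ H, {v | c v ≠ 1}.Finite
  units : ∀ c ∈ H, ∀ u : 𝓞 K, IsUnit u → value c u = 1
  admissible : ∀ c ∈ H, ∀ v, c v ≠ 1 → ∀ i, Admissible l (a i) (b i) v

section extension

variable (F : Type) [Field F] [NumberField F] [Algebra K F]

/-- The places `u` of `F` above `v`. -/
def Above (v : HeightOneSpectrum (𝓞 K)) : Type :=
  {u : HeightOneSpectrum (𝓞 F) // u.asIdeal.comap (algebraMap (𝓞 K) (𝓞 F)) = v.asIdeal}

/-- The Frobenius automorphisms at the place `u` of `F` above `v`: the `t ∈ Gal(F/K)` with `t x = x ^ N(v)`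
modulo `u` for all the integers `x` of `F`.  They are a coset of the inertia group of `u`. -/
def FrobSet (v : HeightOneSpectrum (𝓞 K)) (u : HeightOneSpectrum (𝓞 F)) : Set (F ≃ₐ[K] F) :=
  {t | ∀ x : 𝓞 F, t • x - x ^ Ideal.absNorm v.asIdeal ∈ u.asIdeal}

/-- `F` is a class field of characters of `K` in the group generated by `χ_1, …, χ_r`: `F/K` is an abelian
extension, to each character `ψ` of `Gal(F/K)` corresponds a character `e ψ = ∏ χ_j ^ J_j` of `K` with
the law of reciprocity: the places of the conductor of `e ψ` are those at which `ψ` is ramified (not trivial on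
the inertia groups), and `ψ(t) = (e ψ)(v)` for all other places `v` of `K` and all Frobenius automorphisms
`t ∈ Gal(F/K)` at places of `F` above `v`; and the formula `|d_L| = |d_K|^[L:K] ∏ N(𝔣(e ψ))` for conductors and discriminants
holds for all the fields `L` between `K` and `F`, with the product over the characters `ψ` of `Gal(L/K)` (those which are
trivial on `Gal(F/L)`).  (By class field theory these are the fields between `K` and the class field of the
group generated by `χ_1, …, χ_r`; the law of reciprocity and the formula are not in Mathlib.) -/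
structure IsClassField [IsPrincipalIdealRing (𝓞 K)] {r : ℕ} (χ : Fin r → Fam K) : Prop where
  galois : IsGalois K F
  abelian : ∀ s t : F ≃ₐ[K] F, s * t = t * s
  reciprocity : ∃ e : ((F ≃ₐ[K] F) →* ℂˣ) → Fam K,
    (∀ ψ, ∃ J : Fin r → ℕ, e ψ = ∏ j, χ j ^ J j) ∧
    (∀ ψ, ∀ v : HeightOneSpectrum (𝓞 K), e ψ v ≠ 1 → ∀ u : Above F v,
      ∃ t : F ≃ₐ[K] F, (∀ x : 𝓞 F, t • x - x ∈ u.1.asIdeal) ∧ ψ t ≠ 1) ∧
    (∀ ψ, ∀ v : HeightOneSpectrum (𝓞 K), e ψ v = 1 → ∀ u : Above F v, ∀ t ∈ FrobSet F v u.1,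
      (ψ t : ℂ) = value (e ψ) (Submodule.IsPrincipal.generator v.asIdeal)) ∧
    ∀ L : IntermediateField K F, |(discr L : ℝ)| = |(discr K : ℝ)| ^ Module.finrank K L *
      ∏ᶠ ψ : {ψ : (F ≃ₐ[K] F) →* ℂˣ // ∀ g ∈ L.fixingSubgroup, ψ g = 1}, (conductorNorm (e ψ.1) : ℝ)

end extension

section motive

variable {F : Type} [Field F] [NumberField F] [Algebra K F] {k : ℕ}

open Classical in
/-- The mean of `ρ` over the Frobenius automorphisms at the place `u` above `v`: this is the action of the Frobenius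
automorphism on the invariants `V^I` of the inertia group `I` of `u`, and zero on the complement of `V^I`. -/
noncomputable def frobMatrix (ρ : (F ≃ₐ[K] F) →* Matrix (Fin k) (Fin k) ℚ) (v : HeightOneSpectrum (𝓞 K))
    (u : HeightOneSpectrum (𝓞 F)) : Matrix (Fin k) (Fin k) ℂ :=
  (Nat.card (FrobSet F v u) : ℂ)⁻¹ •
    ∑ t : F ≃ₐ[K] F, if t ∈ FrobSet F v u then (ρ t).map (algebraMap ℚ ℂ) else 0

/-- The Euler factor at `v` of `L(N(ρ), s)`: `det(P_v(N(v)^(-1-s) φ_v))⁻¹`, where `P_v` is the local polynomial of `E` at `v`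
(Mathlib's `WeierstrassCurve.localPolynomial`) and `φ_v` is the matrix of the Frobenius automorphism. -/
noncomputable def eulerFactor (a b : 𝓞 K) (ρ : (F ≃ₐ[K] F) →* Matrix (Fin k) (Fin k) ℚ)
    (v : HeightOneSpectrum (𝓞 K)) (u : HeightOneSpectrum (𝓞 F)) (s : ℂ) : ℂ :=
  ((Polynomial.aeval ((Ideal.absNorm v.asIdeal : ℂ) ^ (-(1 + s)) • frobMatrix ρ v u)
    ((((curve (a : K) (b : K)).baseChange (v.adicCompletion K)).localPolynomial
      (v.adicCompletionIntegers K)).map (Int.castRingHom ℂ))).det)⁻¹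

/-- `x = L(N(ρ), 0)`: the value at `0` of an analytic continuation of the Euler product over the places `v` of `K`
(with a place `u v` of `F` above `v`) from `Re s > 1` to a connected open set containing `0`. -/
def CentralValue (a b : 𝓞 K) (ρ : (F ≃ₐ[K] F) →* Matrix (Fin k) (Fin k) ℚ) (x : ℂ) : Prop :=
  ∃ (u : HeightOneSpectrum (𝓞 K) → HeightOneSpectrum (𝓞 F)) (U : Set ℂ) (Φ : ℂ → ℂ),
    (∀ v, (u v).asIdeal.comap (algebraMap (𝓞 K) (𝓞 F)) = v.asIdeal) ∧
    IsOpen U ∧ IsConnected U ∧ {s : ℂ | (1 : ℝ) < s.re} ⊆ U ∧ (0 : ℂ) ∈ U ∧ AnalyticOnNhd ℂ Φ U ∧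
    (∀ s : ℂ, (1 : ℝ) < s.re → HasProd (fun v => eulerFactor a b ρ v (u v) s) (Φ s)) ∧ Φ 0 = x

/-- `(V ⊗ F)^Gal(F/K)`: the vectors `x ∈ F^k` with `ρ(g) g(x) = x` for all `g ∈ Gal(F/K)`. -/
def deRham (ρ : (F ≃ₐ[K] F) →* Matrix (Fin k) (Fin k) ℚ) : Set (Fin k → F) :=
  {x | ∀ (g : F ≃ₐ[K] F) (i : Fin k), ∑ j, (ρ g i j : F) * g (x j) = x i}

/-- `B` is a rational basis, with `2k` elements, of `(V ⊗ F)^Gal(F/K)`. -/
structure IsRationalBasis (ρ : (F ≃ₐ[K] F) →* Matrix (Fin k) (Fin k) ℚ)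
    (B : Fin k × Fin 2 → Fin k → F) : Prop where
  mem : ∀ l, B l ∈ deRham ρ
  independent : LinearIndependent ℚ B
  span : ∀ x ∈ deRham ρ, x ∈ Submodule.span ℚ (Set.range B)

/-- The matrix of the coordinates of the basis `B` in `ℂ^k × ℂ^k`, by the embedding `ν` and its conjugate. -/
noncomputable def deRhamMatrix (ν : F →+* ℂ) (B : Fin k × Fin 2 → Fin k → F) :
    Matrix (Fin k × Fin 2) (Fin k × Fin 2) ℂ :=
  Matrix.of fun p l => if p.2 = 0 then ν (B l p.1) else (starRingEnd ℂ) (ν (B l p.1))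

/-- The matrix of the coordinates in `ℂ^k × ℂ^k` of the basis `γ_j ⊗ e_p` of `H₁(E^σ(ℂ), ℚ) ⊗ V`, where `w j` is
the period of `γ_j`. -/
noncomputable def bettiMatrix (k : ℕ) (w : Fin 2 → ℂ) : Matrix (Fin k × Fin 2) (Fin k × Fin 2) ℂ :=
  Matrix.of fun p q => if p.1 = q.1 then (if p.2 = 0 then w q.2 else (starRingEnd ℂ) (w q.2)) else 0

/-- `c = c⁺(N(ρ))`: the determinant of the comparison of `N(ρ)_B^+` with `N(ρ)_dR^+`, in rational bases, for an embedding
`ν` of `F` over `σ`, a basis of the lattice of the periods of `dx/(2y)` on `y² = x³ + σ(a) x + σ(b)` (`g₂ = -4 σ(a)`,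
`g₃ = -4 σ(b)`), and a rational basis of `(V ⊗ F)^Gal(F/K)`. -/
def IsPeriod (σ : K →+* ℂ) (a b : K) (ρ : (F ≃ₐ[K] F) →* Matrix (Fin k) (Fin k) ℚ) (c : ℂ) : Prop :=
  ∃ (ν : F →+* ℂ) (L : PeriodPair) (B : Fin k × Fin 2 → Fin k → F),
    (∀ x : K, ν (algebraMap K F x) = σ x) ∧ L.g₂ = -4 * σ a ∧ L.g₃ = -4 * σ b ∧ IsRationalBasis ρ B ∧
    c = (bettiMatrix k ![L.ω₁, L.ω₂]).det / (deRhamMatrix ν B).det

/-- Deligne's conjecture for `N(ρ)`, `L(N(ρ), 0) ∈ ℚ c⁺(N(ρ))`, and `L(N(ρ), 0) ≠ 0`. -/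
def DeligneNonzero (σ : K →+* ℂ) (a b : 𝓞 K) (ρ : (F ≃ₐ[K] F) →* Matrix (Fin k) (Fin k) ℚ) : Prop :=
  ∃ (x c : ℂ) (q : ℚ), CentralValue a b ρ x ∧ IsPeriod σ (a : K) (b : K) ρ c ∧ x ≠ 0 ∧ x = q * c

/-- The conclusion for the motive `N(ρ)`: the central value `L(N(ρ), 0)` exists (it is unique) and is not zero, `(V ⊗ F)^Gal(F/K)`
has a rational basis with `2k` elements, `L(N(ρ), 0) / c⁺(N(ρ)) = q (L(N(1), 0) / c⁺(N(1)))^k` with `q ∈ ℚˣ` and
`N(1) = Res_{K/ℚ} h¹(E)(1)`, for all choices of the bases, and Deligne's conjecture for `N(1)` implies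
Deligne's conjecture for `N(ρ)`, `L(N(ρ), 0) ∈ ℚˣ c⁺(N(ρ))` for all choices of the bases. -/
structure NonzeroRational (σ : K →+* ℂ) (a b : 𝓞 K) (ρ : (F ≃ₐ[K] F) →* Matrix (Fin k) (Fin k) ℚ) : Prop where
  exists_value : ∃! x, CentralValue a b ρ x
  nonzero : ∀ x, CentralValue a b ρ x → x ≠ 0
  exists_basis : ∃ B, IsRationalBasis ρ B
  quotient : ∀ x₀ x c₀ c : ℂ, CentralValue a b (1 : (K ≃ₐ[K] K) →* Matrix (Fin 1) (Fin 1) ℚ) x₀ →
    IsPeriod σ (a : K) (b : K) (1 : (K ≃ₐ[K] K) →* Matrix (Fin 1) (Fin 1) ℚ) c₀ → CentralValue a b ρ x →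
    IsPeriod σ (a : K) (b : K) ρ c → ∃ q : ℚ, q ≠ 0 ∧ x / c = q * (x₀ / c₀) ^ k
  deligne : DeligneNonzero σ a b (1 : (K ≃ₐ[K] K) →* Matrix (Fin 1) (Fin 1) ℚ) →
    DeligneNonzero σ a b ρ ∧ ∀ x c : ℂ, CentralValue a b ρ x → IsPeriod σ (a : K) (b : K) ρ c →
      ∃ q : ℚ, q ≠ 0 ∧ x = q * c

end motive

/-- The conclusion for a tuple of characters: for all the class fields `F`, all the curves and all the rational representations
of `Gal(F/K)`, of any dimension. -/
def AllMotives [IsPrincipalIdealRing (𝓞 K)] (σ : K →+* ℂ) {m : ℕ} (a b : Fin m → 𝓞 K) {r : ℕ}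
    (χ : Fin r → Fam K) : Prop :=
  ∀ (F : Type) [Field F] [NumberField F] [Algebra K F], IsClassField F χ →
    ∀ i (k : ℕ) (ρ : (F ≃ₐ[K] F) →* Matrix (Fin k) (Fin k) ℚ), NonzeroRational σ (a i) (b i) ρ

/-- The set of the `r`-tuples of elements of `H`. -/
def Tuples (H : Subgroup (Fam K)) (r : ℕ) : Set (Fin r → Fam K) := {c | ∀ j, c j ∈ H}

/-- The property `P` holds for a proportion at least `2 ^ (-V)` of the `r`-tuples in `H`: there is a set
`S` of at most `2 ^ V` tuples in `H` such that every tuple in `H` can be multiplied by an element of `S`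
so that the product has the property `P`; so the proportion of the tuples with `P` is at least
`2 ^ (-V)` if `H` is finite, and if `H` is infinite, the number of the tuples with product of the norms of the
conductors at most `X` is at most `2 ^ V` times the number of the tuples with `P` and with product of
the norms of the conductors at most `C X`, `C` independent of `X`. -/
def ManyTuples (V : ℕ) (H : Subgroup (Fam K)) (r : ℕ) (P : (Fin r → Fam K) → Prop) : Prop :=
  (∃ S : Finset (Fin r → Fam K), S.card ≤ 2 ^ V ∧ (S : Set (Fin r → Fam K)) ⊆ Tuples H r ∧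
    ∀ c ∈ Tuples H r, ∃ k ∈ S, P (fun j => c j * k j)) ∧
  ((H : Set (Fam K)).Finite → (Tuples H r).ncard ≤ 2 ^ V * {c | c ∈ Tuples H r ∧ P c}.ncard) ∧
  ∃ C : ℕ, ∀ X : ℕ, {c | c ∈ Tuples H r ∧ ∏ j, conductorNorm (c j) ≤ X}.ncard ≤
    2 ^ V * {c | (c ∈ Tuples H r ∧ P c) ∧ ∏ j, conductorNorm (c j) ≤ C * X}.ncard

end field

section proof

open Pool.Agent.L7h81.DN Pool.Agent.L7h81.UB

variable {K : Type} [Field K] [NumberField K] [IsPrincipalIdealRing (𝓞 K)]

omit [IsPrincipalIdealRing (𝓞 K)] in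
/-- the value is that of `Λ` -/
theorem value_eq {a b n : 𝓞 K} {c : Ideal (𝓞 K) → ℂ} (hE : IsNewformOf a b n c) {σ : K →+* ℂ} {τ : ℝ} {P : ℂ → Prop}
    {F : Type} [Field F] [NumberField F] [Algebra K F] [IsGalois K F]
    {k : ℕ} {ρ : (F ≃ₐ[K] F) →* Matrix (Fin k) (Fin k) ℚ} (h : F2 σ (a : K) (b : K) n c τ P F k ρ) :
    ∃ x, CentralValue a b ρ x ∧ (∀ y, CentralValue a b ρ y → y = x) ∧ P x ∧
      ∀ cp, IsPeriod σ (a : K) (b : K) ρ cp → ∃ q : ℚ, x = q * (cp * τ ^ k) := by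
  obtain ⟨Λ, k1, kP, k2, k3⟩ := h
  have hprod : ∀ u : HeightOneSpectrum (𝓞 K) → HeightOneSpectrum (𝓞 F),
      (∀ v, (u v).asIdeal.comap (algebraMap (𝓞 K) (𝓞 F)) = v.asIdeal) → ∀ s : ℂ, 1 < s.re →
      HasProd (fun v => eulerFactor a b ρ v (u v) s) (Λ (1 + s)) := by
    intro u hu s hs
    exact k2 _ hE u hu (1 + s) (by rw [Complex.add_re, Complex.one_re]; linarith)
  refine ⟨Λ 1, ?_, ?_, kP, ?_⟩
  · choose u hu using fun v : HeightOneSpectrum (𝓞 K) => L7h23.RL.exists_above (F := F) v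
    refine ⟨u, Set.univ, fun s => Λ (1 + s), hu, isOpen_univ, isConnected_univ, Set.subset_univ _,
      Set.mem_univ _, ?_, hprod u hu, by simp⟩
    exact (k1.comp (differentiable_id.const_add 1)).differentiableOn.analyticOnNhd isOpen_univ
  · rintro y ⟨u, U, Φ, hu, hUo, hUc, hUs, hU0, hΦ, hΦp, rfl⟩
    have e1 : Set.EqOn Φ (fun s => Λ (1 + s)) U := by
      refine hΦ.eqOn_of_preconnected_of_eventuallyEq
        ((k1.comp (differentiable_id.const_add 1)).differentiableOn.analyticOnNhd isOpen_univ |>.mono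
          (Set.subset_univ U)) hUc.isPreconnected (z₀ := 2) (hUs (by norm_num)) ?_
      have ho : IsOpen {s : ℂ | (1 : ℝ) < s.re} := isOpen_lt continuous_const Complex.continuous_re
      filter_upwards [ho.mem_nhds (show (2 : ℂ) ∈ {s : ℂ | (1 : ℝ) < s.re} by norm_num)] with s hs
      exact (hΦp s hs).unique (hprod u hu s hs)
    have := e1 hU0
    simpa using this
  · rintro cp ⟨ν, L, B, hν, hg2, hg3, hB, rfl⟩
    exact k3 ν hν L hg2 hg3 B ⟨hB.mem, hB.independent, hB.span⟩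

/-- the field `K` -/
theorem base {σ : K →+* ℂ} {a b : K} {n : 𝓞 K} {c : Ideal (𝓞 K) → ℂ} {τ : ℝ} (hτ : FinD σ a b n c τ) :
    F2 σ a b n c τ (fun _ => True) K 1 1 := by
  classical
  have h1 : ∀ t : K ≃ₐ[K] K, t = 1 := fun t => AlgEquiv.ext fun x => t.commutes x
  have he : (1 : FamK K) ^ 3 ^ 0 = 1 := one_pow (M := FamK K) _
  have hfin : {v | (1 : FamK K) v ≠ 1}.Finite := by
    have : {v | (1 : FamK K) v ≠ 1} = ∅ := by
      ext v
      simp
    rw [this]
    exact Set.finite_empty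
  have hu1 : ∀ u : 𝓞 K, IsUnit u → vl (1 : FamK K) (sp (1 : FamK K)) u = 1 := fun u _ => by
    rw [sp_one]; unfold vl; simp
  have hno : ∀ v : HeightOneSpectrum (𝓞 K), ¬ L7h81.UR.cf (sp (1 : FamK K)) ≤ v.asIdeal := by
    intro v hv
    have := (L7h81.UR.cf_le _ v).1 hv
    rw [sp_one] at this
    exact absurd this (Finset.notMem_empty v)
  refine hτ K (fun s t => by rw [h1 s, h1 t]) (fun _ => L7h81.UR.cf (sp (1 : FamK K)))
    (fun _ => vl (1 : FamK K) (sp (1 : FamK K)))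
    (fun ψ => ⟨L7h81.UR.pk_of (chl_of he hfin hu1), fun v hv u hu => absurd hv (hno v),
      fun v hv u hu t ht => ?_⟩) (fun ψ v hv => absurd hv (hno v)) (fun L => ?_) 1 1
  · rw [h1 t, map_one, sp_one]
    unfold vl
    simp
  · have hL : L = ⊥ := by
      rw [eq_bot_iff]
      intro x _
      exact IntermediateField.mem_bot.2 ⟨x, rfl⟩
    subst hL
    have e1 : discr (⊥ : IntermediateField K K) = discr K :=
      discr_eq_discr_of_ringEquiv _ (IntermediateField.botEquiv K K).toRingEquiv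
    have e2 : Ideal.absNorm (L7h81.UR.cf (sp (1 : FamK K))) = 1 := by
      rw [sp_one]
      unfold L7h81.UR.cf
      simp
    rw [e1, IntermediateField.finrank_bot, pow_one]
    simp only [e2]
    simp

theorem rcp_of {r : ℕ} {χ : Fin r → Fam K} {F : Type} [Field F] [NumberField F] [Algebra K F]
    (h : IsClassField F χ) : ∃ E, Rcp F χ E := by
  obtain ⟨e, h1, h2, h3, h4⟩ := h.reciprocity
  exact ⟨e, h1, fun ψ v hv u hu => h2 ψ v hv ⟨u, hu⟩, fun ψ v hv u hu t ht => h3 ψ v hv ⟨u, hu⟩ t ht, h4⟩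

omit [IsPrincipalIdealRing (𝓞 K)] in
theorem nonzero_of (hK : Module.finrank ℚ K = 2) {σ : K →+* ℂ} {a b n : 𝓞 K} {c : Ideal (𝓞 K) → ℂ}
    (hE : IsNewformOf a b n c) {τ : ℝ} (hτ : 0 < τ)
    (h0 : F2 σ (a : K) (b : K) n c τ (fun x => x ≠ 0) K 1 1)
    {F : Type} [Field F] [NumberField F] [Algebra K F] [IsGalois K F]
    {k : ℕ} {ρ : (F ≃ₐ[K] F) →* Matrix (Fin k) (Fin k) ℚ}
    (h : F2 σ (a : K) (b : K) n c τ (fun x => x ≠ 0) F k ρ) : NonzeroRational σ a b ρ := by
  obtain ⟨x, hx, hxu, hx0, hxq⟩ := value_eq hE h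
  obtain ⟨y, hy, hyu, hy0, hyq⟩ := value_eq hE h0
  have hτ0 : (τ : ℂ) ≠ 0 := by exact_mod_cast hτ.ne'
  have hquot : ∀ x₀ x' c₀ cp : ℂ, CentralValue a b (1 : (K ≃ₐ[K] K) →* Matrix (Fin 1) (Fin 1) ℚ) x₀ →
      IsPeriod σ (a : K) (b : K) (1 : (K ≃ₐ[K] K) →* Matrix (Fin 1) (Fin 1) ℚ) c₀ → CentralValue a b ρ x' →
      IsPeriod σ (a : K) (b : K) ρ cp → ∃ q : ℚ, q ≠ 0 ∧ x' / cp = q * (x₀ / c₀) ^ k := by
    intro x₀ x' c₀ cp hx₀ hc₀ hx' hcp
    rw [hyu _ hx₀, hxu _ hx']
    obtain ⟨q, hq⟩ := hxq cp hcp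
    obtain ⟨q', hq'⟩ := hyq c₀ hc₀
    rw [pow_one] at hq'
    have hq0 : (q : ℂ) ≠ 0 := fun h1 => hx0 (by rw [hq, h1, zero_mul])
    have hq0' : (q' : ℂ) ≠ 0 := fun h1 => hy0 (by rw [hq', h1, zero_mul])
    have hc1 : cp ≠ 0 := fun h1 => hx0 (by rw [hq, h1, zero_mul, mul_zero])
    have hc2 : c₀ ≠ 0 := fun h1 => hy0 (by rw [hq', h1, zero_mul, mul_zero])
    refine ⟨q / q' ^ k, div_ne_zero (by exact_mod_cast hq0) (pow_ne_zero _ (by exact_mod_cast hq0')), ?_⟩
    rw [hq, hq']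
    push_cast
    have e1 : (q' : ℂ) * (c₀ * τ) / c₀ = q' * τ := by field_simp
    rw [e1, mul_pow]
    field_simp
  have hbas : ∃ B, IsRationalBasis ρ B := by
    obtain ⟨B, h1, h2, h3⟩ := exists_rat hK ρ
    exact ⟨B, fun l g i => h1 l g i, h2, fun x hx => h3 x hx⟩
  have hall : DeligneNonzero σ a b (1 : (K ≃ₐ[K] K) →* Matrix (Fin 1) (Fin 1) ℚ) →
      ∀ x c : ℂ, CentralValue a b ρ x → IsPeriod σ (a : K) (b : K) ρ c → ∃ q : ℚ, q ≠ 0 ∧ x = q * c := by
    rintro ⟨x₀, c₀, q₀, hx₀, hc₀, hx₀0, hq₀⟩ x' cp hx' hcp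
    obtain ⟨q, hq, hqq⟩ := hquot x₀ x' c₀ cp hx₀ hc₀ hx' hcp
    have hc2 : c₀ ≠ 0 := fun h1 => hx₀0 (by rw [hq₀, h1, mul_zero])
    have hq₀0 : q₀ ≠ 0 := fun h1 => hx₀0 (by rw [hq₀, h1]; simp)
    have hc1 : cp ≠ 0 := by
      intro h1
      obtain ⟨q1, hq1⟩ := hxq cp hcp
      exact hx0 (by rw [hq1, h1, zero_mul, mul_zero])
    refine ⟨q * q₀ ^ k, mul_ne_zero hq (pow_ne_zero _ hq₀0), ?_⟩
    rw [div_eq_iff hc1] at hqq
    rw [hqq, hq₀]
    push_cast
    have e1 : (q₀ : ℂ) * c₀ / c₀ = q₀ := by field_simp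
    rw [e1]
  refine ⟨⟨x, hx, hxu⟩, fun z hz => by rw [hxu z hz]; exact hx0, hbas, hquot, fun hD => ⟨?_, hall hD⟩⟩
  obtain ⟨ν, hν⟩ : ∃ ν : F →+* ℂ, ∀ x : K, ν (algebraMap K F x) = σ x := by
    let : Algebra K ℂ := σ.toAlgebra
    exact ⟨(IsAlgClosed.lift : F →ₐ[K] ℂ).toRingHom, fun x => (IsAlgClosed.lift : F →ₐ[K] ℂ).commutes x⟩
  obtain ⟨B, hB⟩ := hbas
  obtain ⟨x₀, c₀, q₀, hx₀, ⟨ν₀, L, B₀, hν₀, hg2, hg3, hB₀, hc₀⟩, hx₀0, hq₀⟩ := hD
  have hper : IsPeriod σ (a : K) (b : K) ρ ((bettiMatrix k ![L.ω₁, L.ω₂]).det / (deRhamMatrix ν B).det) :=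
    ⟨ν, L, B, hν, hg2, hg3, hB, rfl⟩
  obtain ⟨q, -, hq⟩ := hall ⟨x₀, c₀, q₀, hx₀, ⟨ν₀, L, B₀, hν₀, hg2, hg3, hB₀, hc₀⟩, hx₀0, hq₀⟩ x _ hx hper
  exact ⟨x, _, q, hx, hper, hx0, hq⟩

end proof

/-- **Theorem.** Let `K` be an imaginary quadratic field of class number one, `E_i : y² = x³ + a_i x + b_i`,
`i = 1, …, m`, elliptic curves over `K` with Bianchi newforms `f_i` of levels `(N_i)`, and suppose that
`L(E_i/K, 1) = L(N_i(1), 0) ≠ 0` for all `i`.  Let `l` be a prime number.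

1. For all `n`, `r` there is `V` such that for every group `H` of characters of `K` of order dividing `l ^ n` and of
   conductors which are products of different admissible places, for a proportion at least `2 ^ (-V)` of the tuples
   `χ_1, …, χ_r` in `H` the following holds for all class fields `F` of characters in the group generated by
   `χ_1, …, χ_r`, all rational representations `ρ` of `Gal(F/K)`, of any dimension `k`, and all `i`: the
   central value `L(N_i(ρ), 0)` exists and is not zero, `L(N_i(ρ), 0) / c⁺(N_i(ρ)) = q (L(N_i(1), 0) / c⁺(N_i(1)))^k` with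
   `q ∈ ℚˣ` (for all choices of the rational bases, which exist), and Deligne's conjecture for
   `N_i(1) = Res_{K/ℚ} h¹(E_i)(1)` implies Deligne's conjecture for `N_i(ρ)`, `L(N_i(ρ), 0) ∈ ℚˣ c⁺(N_i(ρ))`.
2. Every infinite such group `H` has an infinite subgroup `H₀` such that this holds for all tuples in `H₀`, of any
   length. -/
theorem result (K : Type) [Field K] [NumberField K] [IsPrincipalIdealRing (𝓞 K)] (σ : K →+* ℂ)
    (δ : K) (hK : IsFieldData K σ δ) (m : ℕ)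
    (a b N : Fin m → 𝓞 K) (_hΔ : ∀ i, 4 * a i ^ 3 + 27 * b i ^ 2 ≠ 0)
    (c : Fin m → Ideal (𝓞 K) → ℂ) (hf : ∀ i, IsNewform σ δ (N i) (c i))
    (hE : ∀ i, IsNewformOf (a i) (b i) (N i) (c i))
    (h0 : ∀ i, ∃ x, CentralValue (a i) (b i) (1 : (K ≃ₐ[K] K) →* Matrix (Fin 1) (Fin 1) ℚ) x ∧ x ≠ 0)
    (l : ℕ) (hl : l.Prime) (n : ℕ) :
    (∀ r : ℕ, ∃ V : ℕ, ∀ H : Subgroup (Fam K), IsCharGroup l a b n H →
      ManyTuples V H r (AllMotives σ a b)) ∧
    ∀ H : Subgroup (Fam K), IsCharGroup l a b n H → (H : Set (Fam K)).Infinite →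
      ∃ H₀ : Subgroup (Fam K), H₀ ≤ H ∧ (H₀ : Set (Fam K)).Infinite ∧
        ∀ r : ℕ, ∀ χ ∈ Tuples H₀ r, AllMotives σ a b χ := by
  classical
  have h : K4H55.BI.IQ K σ δ := ⟨hK.quadratic, hK.imaginary, inferInstance, hK.different⟩
  have hf' : ∀ i, K4H55.BI.BF σ δ (N i) (c i) := fun i => ⟨(hf i).level, (hf i).zero, (hf i).one,
    (hf i).bound, (hf i).good, (hf i).bad, (hf i).invariant, (hf i).fricke⟩
  have hω : ∀ i, ∃ ω ∈ AddSubgroup.closure (K4H55.BK.Vals σ δ (N i) (c i)),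
      ∀ l ∈ AddSubgroup.closure (K4H55.BK.Vals σ δ (N i) (c i)), ∃ j : ℤ, l = j * ω :=
    fun i => (hf i).cyclic
  have hloc : ∀ i, ∀ v : HeightOneSpectrum (𝓞 K),
      c i v.asIdeal = (W189.NF.aV (L7h15.BK.cv (a i : K) (b i : K)) v : ℂ) ∧
      (W189.NF.eV (L7h15.BK.cv (a i : K) (b i : K)) v : ℂ) =
        if N i ∈ v.asIdeal then 0 else (Ideal.absNorm v.asIdeal : ℂ) := by
    intro i v
    have h2 := hE i v
    have h3 : curve (a i : K) (b i : K) = L7h15.BK.cv (a i : K) (b i : K) := rfl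
    rw [h3, W189.NF.localPolynomial_eq] at h2
    have h4 := congrArg (fun p => Polynomial.coeff p 1) h2
    have h5 := congrArg (fun p => Polynomial.coeff p 2) h2
    simp only [Polynomial.coeff_map, Polynomial.coeff_add, Polynomial.coeff_sub,
      Polynomial.coeff_C_mul, Polynomial.coeff_X_pow, Polynomial.coeff_X, Polynomial.coeff_one] at h4 h5
    norm_num at h4 h5
    exact ⟨h4.symm, h5⟩
  have hτ : ∀ i, ∃ τ : ℝ, 0 < τ ∧ L7h81.DN.FinD σ (a i : K) (b i : K) (N i) (c i) τ := fun i => by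
    obtain ⟨ω, hω1, hω2⟩ := hω i
    exact L7h81.DN.exists_tau h (hf' i) (fun v => ⟨_, (hloc i v).1⟩) hω1 hω2
  choose τ hτ1 hτ2 using hτ
  -- the field `K`
  have hKK : ∀ i, L7h81.DN.F2 σ (a i : K) (b i : K) (N i) (c i) (τ i) (fun x => x ≠ 0) K 1 1 := by
    intro i
    obtain ⟨Λ, k1, -, k2, k3⟩ := base (hτ2 i)
    refine ⟨Λ, k1, ?_, k2, k3⟩
    obtain ⟨x, -, hxu, hxP, -⟩ := value_eq (hE i) (P := fun y => y = Λ 1) ⟨Λ, k1, rfl, k2, k3⟩
    obtain ⟨x', hx', hne⟩ := h0 i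
    rw [← hxP, ← hxu x' hx']
    exact hne
  have hfv : ∀ i, K4H55.BI.fv (K4H55.BI.ordK h) (fun x => c i (Ideal.span {x})) 0 ≠ 0 :=
    fun i => L7h81.DN.fv_ne2 h (hf' i) (hKK i)
  refine ⟨fun r => ?_, fun H hH hinf => ?_⟩
  · obtain ⟨V, hV⟩ := L7h81.DN.uniD h a b N c hf' hloc hτ2 hfv hl n r
    refine ⟨V, fun H hH => ?_⟩
    obtain ⟨S, h2, h3, h4⟩ := hV H ⟨hH.pow, hH.finite, hH.units, fun e he v hv i => hH.admissible e he v hv i⟩
    have h5 : ∀ e : Fin r → Fam K, (∀ j, e j ∈ H) → ∃ x ∈ S, AllMotives σ a b (fun j => e j * x j) := by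
      intro e he
      obtain ⟨x, hx, h6⟩ := h4 e he
      refine ⟨x, hx, fun F _ _ _ hF i k ρ => ?_⟩
      have := hF.galois
      exact nonzero_of hK.quadratic (hE i) (hτ1 i) (hKK i) (h6 F hF.abelian (rcp_of hF) i k ρ)
    exact ⟨⟨S, h2, fun x hx => h3 x hx, h5⟩, L7h81.UB.many_tuples hH.finite S h2 h3 h5⟩
  · obtain ⟨H₀, h2, h3, h4⟩ := L7h81.DN.infD h a b N c hf' hloc hτ2 hfv hl n H
      ⟨hH.pow, hH.finite, hH.units, fun e he v hv i => hH.admissible e he v hv i⟩ hinf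
    refine ⟨H₀, h2, h3, fun r χ hχ F _ _ _ hF i k ρ => ?_⟩
    have := hF.galois
    exact nonzero_of hK.quadratic (hE i) (hτ1 i) (hKK i) (h4 r χ hχ F hF.abelian (rcp_of hF) i k ρ)

end Pool.Agent.Results.MP_b696eb_nt.DeligneNonvanishing
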