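import Pool.Agent.L7h45.DL.Quot
import Pool.Agent.R389.Grow
import Pool.Agent.R389.NewMain

set_option autoImplicit false

/-!
# Deligne's conjecture for Artin twists when all zeros come from a subfield

Let `F/K` be a finite Galois extension of number fields with group `G`, let `M` be a motive over `K`
and let `c` be a critical point of `M` and of its twists `M ⊗ ρ` by the representations `ρ` of `G`.
Brauer's induction theorem reduces Deligne's conjecture for all `M ⊗ ρ` to the monomial `ρ` as long
as the values for the monomial `ρ` are not zero. The theorem below is an unconditional reduction for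
zeros of arbitrary order, provided that `L(M, s)` has at `c` no more zeros over `F` than over the
field of a normal subgroup `N` (or, more generally, than in the part of `L(M/F, s)` on which `N`
acts through a linear character of `G`).
-/

namespace Pool.Agent.Results.MP_b696eb_nt.NoNewZeros

open Pool.Agent.H541R3.ART Pool.Agent.R389 Pool.Agent.L7h45.DL Filter Topology

/-- **Theorem.** Let `E` be a field with a primitive root of unity of order `exp(G)` which has an
embedding `τ₀` into `ℂ`, let `T` be the L-functions and the periods of the twists of `M` and let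
`deg χ = χ 1`, so that `∏ L(M ⊗ χ, s) ^ deg χ` is the L-function of `M` over `F`. Let `N` be a normal
subgroup of `G`.

Let `lam` be a character of degree one of `G` with values in `E`, and assume that at `c` the
function `L(M/F, s)` has no zeros besides those of its part on which `N` acts through `lam` (for
`lam = 1`: no more zeros than `L(M/F^N, s)`).
(1) Deligne's conjecture holds for the twists by all representations of `G` if and only if it holds
for the abelian twists over the fixed fields of the subgroups which are nilpotent or
hyperelementary, and for the twists by the representations of `G` on which `N` acts through `lam`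
(for `lam = 1`: the representations of `G/N`).
(2) If `G/N` has an abelian normal subgroup with nilpotent quotient, then the conjecture holds for
the twists by all representations of `G` if and only if it holds for the abelian twists over the
intermediate fields.

(3) Let `G/N` be a `p`-group and let `lam` be a complex character of degree one of `G`. If the order
of `L(M/F, s)` at `c` is at most one, or at most the order of its part on which `N` acts through
`lam`, then Deligne's conjecture holds for the twists by all representations of `G` if and only if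
it holds for the abelian twists over the fixed fields of the hyperelementary subgroups.

(4) Let the elements of `G/N` have prime power orders, assume that at `c` the function `L(M/F, s)` has
no zeros besides those of its part on which `N` acts through `lam`, and that Deligne's
conjecture holds for the abelian twists over the fixed fields of the hyperelementary subgroups.
Let `ρ` be a representation of `G` over `E` without nonzero vectors on which `N` acts through
`lam`. Then the conjecture holds for `M ⊗ ρ`, and the value `L(M ⊗ ρ, c)` is not zero. -/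
theorem result (G : Type) [Group G] [Finite G] (E : Type) [Field E] (c : ℂ)
    (ζ : E) (hζ : IsPrimitiveRoot ζ (Monoid.exponent G)) (τ₀ : E →+* ℂ)
    (deg : (G → ℂ) → ℕ) (hdeg : ∀ χ ∈ Irr G, χ 1 = deg χ) (T : Twists G E c)
    (N : Subgroup G) [N.Normal] :
    (∀ lam : G →* Eˣ, T.order τ₀ deg ≤ T.orderOn τ₀ N (fun g => τ₀ ((lam g : Eˣ) : E)) deg →
      (T.All ↔ (∀ (U : Subgroup G) (ψ : U →* Eˣ), Tame U → T.AbelianAt U ψ) ∧
        ∀ (W : Type) [AddCommGroup W] [Module E W] [FiniteDimensional E W]
          (σ : Representation E G W), (∀ k ∈ N, ∀ w, σ k w = ((lam k : Eˣ) : E) • w) →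
          Deligne T.L T.P c σ.character) ∧
      ((∃ (A : Subgroup (G ⧸ N)) (_ : A.Normal), (∀ a b : A, a * b = b * a) ∧
        Group.IsNilpotent ((G ⧸ N) ⧸ A)) → (T.All ↔ T.Abelian))) ∧
    (∀ p : ℕ, p.Prime → IsPGroup p (G ⧸ N) → ∀ lam : G →* ℂˣ,
      T.order τ₀ deg ≤ max 1 (T.orderOn τ₀ N (fun g => ((lam g : ℂˣ) : ℂ)) deg) →
      (T.All ↔ ∀ (U : Subgroup G) (ψ : U →* Eˣ), Hyper U → T.AbelianAt U ψ)) ∧
    ((∀ x : G ⧸ N, x = 1 ∨ IsPrimePow (orderOf x)) → ∀ lam : G →* ℂˣ,
      T.order τ₀ deg ≤ T.orderOn τ₀ N (fun g => ((lam g : ℂˣ) : ℂ)) deg →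
      (∀ (U : Subgroup G) (ψ : U →* Eˣ), Hyper U → T.AbelianAt U ψ) →
      ∀ (V : Type) [AddCommGroup V] [Module E V] [FiniteDimensional E V]
        (ρ : Representation E G V), ∑ᶠ k : N, τ₀ (ρ.character k) * (((lam k)⁻¹ : ℂˣ) : ℂ) = 0 →
        ∃ e : E, e ≠ 0 ∧ ∀ (τ : E →+* ℂ) (m : (G → ℂ) → ℕ),
          IsDecomp (fun g => τ (ρ.character g)) m →
          Tendsto (fun s => ∏ᶠ χ ∈ Irr G, T.L τ χ s ^ m χ) (𝓝[≠] c)
            (𝓝 (τ e * ∏ᶠ χ ∈ Irr G, T.P τ χ ^ m χ))) := by
  have hchar : CharZero E := τ₀.charZero
  refine ⟨?_, ?_, ?_⟩
  · intro lam hz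
    refine ⟨⟨fun h => ⟨fun U ψ _ => h.abelianAt U ψ, fun W _ _ _ σ _ => h W σ⟩, ?_⟩, ?_⟩
    · rintro ⟨h1, h2⟩
      intro V _ _ _ ρ
      exact main_grow hζ T.mero T.per h1 τ₀ hdeg N lam h2 hz ρ
    · intro hQ
      refine ⟨fun h => h.abelian, fun h => ?_⟩
      intro V _ _ _ ρ
      exact main_grow hζ T.mero T.per (fun U ψ _ => h U ψ) τ₀ hdeg N lam
        (fun W _ _ _ σ hσ => deligne_of_quot hζ h τ₀ N hQ lam σ hσ) hz ρ
  · intro p hp hQ lam hz
    refine ⟨fun h U ψ _ => h.abelianAt U ψ, fun h => ?_⟩
    intro V _ _ _ ρ
    exact main hζ T.mero T.per h τ₀ hdeg hp N hQ lam hz ρ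
  · intro he lam hz h V _ _ _ ρ hρ
    exact main_new hζ T.mero T.per h τ₀ hdeg N he lam hz ρ hρ

end Pool.Agent.Results.MP_b696eb_nt.NoNewZeros
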