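import Pool.Agent.L7h82.RL.Dl
import Pool.Agent.L7h60.RL.Eul
import Pool.Agent.L7h65.RL2.Exc

/-!
# Deligne's conjecture for the twists of elliptic curves over imaginary quadratic fields by all rational representations
# of abelian Galois groups, up to powers of one constant

`K` is an imaginary quadratic field of class number one and `E : y² = x³ + a x + b` an elliptic curve over `K` (not
necessarily defined over `ℚ`, and without complex multiplication in general), which belongs to a Bianchi newform `f` of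
weight two and level `(n)`.  Let `F/K` be a finite abelian extension of conductor prime to `n`, and let `ρ` be a
rational representation of `Gal(F/K)` on `V = ℚ^k`.  The motive `N(ρ) = Res_{K/ℚ} (h¹(E)(1) ⊗ V)` over `ℚ` is pure of
weight `-1` and rank `4k`, with rational coefficients, and critical.  Its realizations are:

* `L(N(ρ), s) = ∏_v det(P_v(N(v)^(-1-s) φ_v) | V^{I_v})⁻¹`, where `P_v` is the local polynomial of `E` at the place `v` of
  `K` and `φ_v` the Frobenius automorphism on the invariants `V^{I_v}` of the inertia group (`E` has good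
  reduction at the places which ramify in `F`);
* `N(ρ)_B^+ = H₁(E^σ(ℂ), ℚ) ⊗ V`, of dimension `2k`: the other half of `N(ρ)_B`, for the conjugate embedding, is its
  image under `F_∞`;
* `N(ρ)_dR^+ = Lie(E) ⊗_K (V ⊗ F)^Gal(F/K)`, of dimension `2k` over `ℚ`, with the two embeddings in `ℂ ⊗ V` given by
  an embedding `ν` of `F` over `σ` and its conjugate.

So Deligne's period `c⁺(N(ρ))` is `det(B)/det(D)`, with the matrix `B` of the coordinates of `γ_j ⊗ e_p`, that is of the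
periods `ω₁`, `ω₂` of `dx/(2y)` and of their conjugates, and the matrix `D` of the coordinates of a rational basis of `(V ⊗ F)^Gal(F/K)`.

Theorem.  There is ONE constant `τ > 0` such that `L(N(ρ), 0) ∈ ℚ c⁺(N(ρ)) τ^dim(ρ)` for all such `F` and all rational
representations `ρ` of `Gal(F/K)`.  In particular: if Deligne's conjecture is true for the motive `Res_{K/ℚ} h¹(E)(1)`, with
`L(E/K, 1) ≠ 0`, then it is true for all the motives `N(ρ)`; the same follows from Deligne's conjecture for two of these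
motives with coprime dimensions of `ρ` and non-zero values.

The proof does not use the theory of automorphic representations.  The central value of the twist `f ⊗ χ` by a primitive
character `χ` of any conductor `(m)` is the combination `∑ conj χ(x) Φ(x/m)` of the values at cusps of the primitive
`Φ` of the harmonic differential of `f`, divided by the Gauss sum of `conj χ`.  The characters in `V ⊗ ℂ` are
stable under `χ ↦ χ^j`, `j` prime to the order of the Galois group, so the product of these sums is a rational integer times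
a power of one real number, and the product of the Gauss sums is `± √(∏ N(𝔣(χ)))`.  On the other side
`det(D)` is `(i √|d_K|)^k |ν(y)|²` up to a rational factor, where `g(y) = det ρ(g) y` for `g ∈ Gal(F/K)`, and `|ν(y)|²` is
`√(∏ N(𝔣(χ)))` up to a rational factor: the conductors of the characters which are not quadratic come in pairs, and for the
quadratic characters this is the formula for conductors and discriminants.

The parts of the proof were written with helper15, helper23, helper50, helper53, helper60 and helper65.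
-/

set_option autoImplicit false

open NumberField IsDedekindDomain Matrix WeierstrassCurve Filter Topology

namespace Pool.Agent.Results.MP_b696eb_nt.OneConstantForAllTwists

/-- `K` is an imaginary quadratic field, `σ` is one of its two embeddings in `ℂ`, and `δ` generates the
different of `K`: an `x ∈ K` is in `𝓞` if and only if `Tr(x y / δ) ∈ ℤ` for all `y ∈ 𝓞`. -/
structure IsFieldData (K : Type) [Field K] [NumberField K] (σ : K →+* ℂ) (δ : K) : Prop where
  quadratic : Module.finrank ℚ K = 2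
  imaginary : ∃ x, (starRingEnd ℂ) (σ x) ≠ σ x
  different : ∀ x : K, (∃ a : 𝓞 K, (a : K) = x) ↔
    ∀ y : 𝓞 K, ∃ m : ℤ, Algebra.trace ℚ K (x * y / δ) = m

/-- `h(y) = ∫_0^∞ exp(-1/v - y v) dv = 2 y^(-1/2) K₁(2 √y)`, with the Bessel function `K₁`. -/
noncomputable def bessel (y : ℝ) : ℝ := ∫ v in Set.Ioi (0 : ℝ), Real.exp (-(1 / v) - y * v)

/-- The additive character `e(z) = exp(2πi (z/δ + conj (z/δ)))` of `ℂ`, trivial on `𝓞`. -/
noncomputable def addChar (δ z : ℂ) : ℂ :=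
  Complex.exp (2 * Real.pi * Complex.I * (z / δ + (starRingEnd ℂ) (z / δ)))

/-- The denominator `|c z + d|² + |c|² t²` of the action of the matrix `(a, b; c, d)` on the hyperbolic
space `{(z, t) : z ∈ ℂ, t > 0}`. -/
noncomputable def den (c d z : ℂ) (t : ℝ) : ℝ := ‖c * z + d‖ ^ 2 + ‖c‖ ^ 2 * t ^ 2

/-- The first coordinate `((a z + b) conj (c z + d) + a conj(c) t²) / (|c z + d|² + |c|² t²)` of the image
of `(z, t)` under the matrix `(a, b; c, d)`. -/
noncomputable def actZ (a b c d z : ℂ) (t : ℝ) : ℂ :=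
  ((a * z + b) * (starRingEnd ℂ) (c * z + d) + a * (starRingEnd ℂ) c * (t : ℂ) ^ 2) /
    (den c d z t : ℂ)

/-- The second coordinate, for a matrix of determinant one; in general it is `|ad - bc|` times this. -/
noncomputable def actT (c d z : ℂ) (t : ℝ) : ℝ := t / den c d z t

section field
variable {K : Type} [Field K] [NumberField K]

/-- The function `Φ(z, t) = ∑_{x ∈ 𝓞} c((x)) t² h(N(x) (2πt/|δ|)²) e(x z)
  = (|δ|/π) ∑_{x ≠ 0} (c((x))/|x|) t K₁(4π|x|t/|δ|) e(x z)` on the hyperbolic space, with the coefficients `c`.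
Up to a constant factor it is the primitive, zero at the cusp `∞`, of the harmonic differential of the
form of weight two with the Fourier coefficients `c`: its derivative by `t` is
`-4 ∑_{x ≠ 0} c((x)) t K₀(4π|x|t/|δ|) e(x z)`. -/
noncomputable def primitive (σ : K →+* ℂ) (δ : K) (c : Ideal (𝓞 K) → ℂ) (z : ℂ) (t : ℝ) : ℂ :=
  ∑' x : 𝓞 K, c (Ideal.span {x}) * ((t ^ 2 * bessel (Ideal.absNorm (Ideal.span {x}) *
    (2 * Real.pi * t / ‖σ δ‖) ^ 2) : ℝ) : ℂ) * addChar (σ δ) (σ x * z)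

/-- The group `Λ` generated by the values of the primitive `Φ` at the cusps `x/m`, `m ≠ 0` prime to the level (that is,
by the limits of `Φ(x/m, t)` for `t → 0`). -/
def Lam (σ : K →+* ℂ) (δ : K) (n : 𝓞 K) (c : Ideal (𝓞 K) → ℂ) : AddSubgroup ℂ :=
  AddSubgroup.closure {z | ∃ x m : 𝓞 K, m ≠ 0 ∧ IsCoprime m n ∧
    Tendsto (fun t => primitive σ δ c (σ x / σ m) t) (𝓝[>] 0) (𝓝 z)}

/-- The numbers `c(I)` are the Hecke eigenvalues of a Bianchi newform `f` of weight two, level `(n)` and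
trivial character over `K`, with rational eigenvalues: they satisfy `c(𝓞) = 1`, the (trivial) bound `c(I) = O(N(I))`
and the Hecke relations `c(v I) = c(v) c(I)` for `v ∤ I`, `c(v² I) = c(v) c(v I) - N(v) c(I)` for the primes `v ∤ n`, and
`c(v I) = c(v) c(I)` for `v ∣ n`; the differential `dΦ` of the function `Φ` with the coefficients `c` is
invariant under `Γ₀(n)`, that is, `Φ(γ P) - Φ(P)` is a constant for every `γ ∈ Γ₀(n)`; `dΦ` is an
eigenform, with the eigenvalue `±1`, of the Fricke involution `W = (0, -1; n, 0)`; and the group `Λ` of the values of `Φ` at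
cusps is cyclic (this is so for rational eigenvalues, by multiplicity one and the theorem of Manin, Drinfeld and
Kurčanov: the quotient of `H₁(Γ₀(n), cusps; ℤ)` which belongs to `f` has rank one). -/
structure IsNewform (σ : K →+* ℂ) (δ : K) (n : 𝓞 K) (c : Ideal (𝓞 K) → ℂ) : Prop where
  level : n ≠ 0
  zero : c ⊥ = 0
  one : c ⊤ = 1
  bound : ∃ C : ℝ, ∀ I, ‖c I‖ ≤ C * Ideal.absNorm I
  good : ∀ v : HeightOneSpectrum (𝓞 K), n ∉ v.asIdeal → ∀ I,
    (¬ v.asIdeal ∣ I → c (v.asIdeal * I) = c v.asIdeal * c I) ∧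
    c (v.asIdeal * (v.asIdeal * I)) = c v.asIdeal * c (v.asIdeal * I) -
      Ideal.absNorm v.asIdeal * c I
  bad : ∀ v : HeightOneSpectrum (𝓞 K), n ∈ v.asIdeal → ∀ I,
    c (v.asIdeal * I) = c v.asIdeal * c I
  invariant : ∃ κ : SpecialLinearGroup (Fin 2) (𝓞 K) → ℂ,
    ∀ γ : SpecialLinearGroup (Fin 2) (𝓞 K), n ∣ γ.1 1 0 → ∀ (z : ℂ) (t : ℝ), 0 < t →
      primitive σ δ c (actZ (σ (γ.1 0 0)) (σ (γ.1 0 1)) (σ (γ.1 1 0)) (σ (γ.1 1 1)) z t)
        (actT (σ (γ.1 1 0)) (σ (γ.1 1 1)) z t) = primitive σ δ c z t + κ γ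
  fricke : ∃ w κ : ℂ, w * w = 1 ∧ ∀ (z : ℂ) (t : ℝ), 0 < t →
    primitive σ δ c (actZ 0 (-1) (σ n) 0 z t) (‖σ n‖ * actT (σ n) 0 z t) =
      -w * primitive σ δ c z t + κ
  cyclic : ∃ ω ∈ Lam σ δ n c, ∀ l ∈ Lam σ δ n c, ∃ j : ℤ, l = j * ω

/-- The curve `E : y² = x³ + a x + b` over `K`. -/
def curve (a b : K) : WeierstrassCurve K := ⟨0, 0, 0, a, b⟩

open Classical in
/-- `f` is the newform of `E : y² = x³ + a x + b`: the Euler factors of `f` and of `E` agree at all the places `v` of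
`K`, that is, the local polynomial of `E` at `v` (Mathlib's `WeierstrassCurve.localPolynomial`) is
`1 - c(v) X + N(v) X²`, without the last term if `v ∣ n`. -/
def IsNewformOf (a b n : 𝓞 K) (c : Ideal (𝓞 K) → ℂ) : Prop :=
  ∀ v : HeightOneSpectrum (𝓞 K),
    (((curve (a : K) (b : K)).baseChange (v.adicCompletion K)).localPolynomial
      (v.adicCompletionIntegers K)).map (Int.castRingHom ℂ) =
      1 - Polynomial.C (c v.asIdeal) * Polynomial.X +
        Polynomial.C (if n ∈ v.asIdeal then 0 else (Ideal.absNorm v.asIdeal : ℂ)) *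
          Polynomial.X ^ 2

/-- `χ` is a character of `K` of conductor `𝔣`, as a function on `𝓞` (`K` has class number one): a primitive character
modulo `𝔣`, trivial on the units, and zero on the `x` which are not prime to `𝔣`. -/
structure IsCharacter (𝔣 : Ideal (𝓞 K)) (χ : 𝓞 K → ℂ) : Prop where
  conductor : 𝔣 ≠ ⊥
  one : χ 1 = 1
  mul : ∀ x y, χ (x * y) = χ x * χ y
  zero : ∀ x, χ x = 0 ↔ ∃ v : HeightOneSpectrum (𝓞 K), 𝔣 ≤ v.asIdeal ∧ x ∈ v.asIdeal
  periodic : ∀ x y, x - y ∈ 𝔣 → χ x = χ y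
  units : ∀ u, IsUnit u → χ u = 1
  primitive : ∀ 𝔡 : Ideal (𝓞 K), 𝔣 < 𝔡 → ∃ x, x - 1 ∈ 𝔡 ∧ χ x ≠ 0 ∧ χ x ≠ 1

section extension

variable (F : Type) [Field F] [NumberField F] [Algebra K F]

/-- The places `u` of `F` above `v`. -/
def Above (v : HeightOneSpectrum (𝓞 K)) : Type :=
  {u : HeightOneSpectrum (𝓞 F) // u.asIdeal.comap (algebraMap (𝓞 K) (𝓞 F)) = v.asIdeal}

/-- The Frobenius automorphisms at the place `u` of `F` above `v`: the `t ∈ Gal(F/K)` with `t x = x ^ N(v)`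
modulo `u` for all the integers `x` of `F`.  They are a coset of the inertia group of `u`. -/
def FrobSet (v : HeightOneSpectrum (𝓞 K)) (u : HeightOneSpectrum (𝓞 F)) : Set (F ≃ₐ[K] F) :=
  {t | ∀ x : 𝓞 F, t • x - x ^ Ideal.absNorm v.asIdeal ∈ u.asIdeal}

/-- The law of reciprocity for the character `ψ` of `Gal(F/K)` and the character `χ` of `K` of conductor `𝔣`: the places
`v ∣ 𝔣` are ramified for `ψ` (`ψ` is not trivial on the inertia groups), and `ψ(t) = χ(v)` for all places `v ∤ 𝔣` of `K` and all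
Frobenius automorphisms `t ∈ Gal(F/K)` at places of `F` above `v`. -/
structure Corresponds [IsPrincipalIdealRing (𝓞 K)] (ψ : (F ≃ₐ[K] F) →* ℂˣ) (𝔣 : Ideal (𝓞 K))
    (χ : 𝓞 K → ℂ) : Prop where
  ramified : ∀ v : HeightOneSpectrum (𝓞 K), 𝔣 ≤ v.asIdeal → ∀ u : Above F v,
    ∃ t : F ≃ₐ[K] F, (∀ x : 𝓞 F, t • x - x ∈ u.1.asIdeal) ∧ ψ t ≠ 1
  frobenius : ∀ v : HeightOneSpectrum (𝓞 K), ¬ 𝔣 ≤ v.asIdeal → ∀ u : Above F v, ∀ t ∈ FrobSet F v u.1,
    (ψ t : ℂ) = χ (Submodule.IsPrincipal.generator v.asIdeal)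

/-- The formula for conductors and discriminants `|d_L| = |d_K|^[L:K] ∏ N(𝔣 ψ)`, for all the fields `L` between `K` and
`F`, with the product over the characters `ψ` of `Gal(L/K)` (those which are trivial on `Gal(F/L)`). -/
def ConductorDiscriminantFormula (𝔣 : ((F ≃ₐ[K] F) →* ℂˣ) → Ideal (𝓞 K)) : Prop :=
  ∀ L : IntermediateField K F, |(discr L : ℝ)| = |(discr K : ℝ)| ^ Module.finrank K L *
    ∏ᶠ ψ : {ψ : (F ≃ₐ[K] F) →* ℂˣ // ∀ g ∈ L.fixingSubgroup, ψ g = 1}, (Ideal.absNorm (𝔣 ψ.1) : ℝ)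

/-- `F/K` is a finite abelian extension of conductor prime to `n`.  To each character `ψ` of `Gal(F/K)` corresponds
(by the law of reciprocity of class field theory) a character `χ ψ` of `K`, its conductor `𝔣 ψ` is prime to `n`, and the formula
for conductors and discriminants holds.  (The law of reciprocity and the formula are true for every abelian
extension; they are not in Mathlib.) -/
structure IsAbelianExtension [IsPrincipalIdealRing (𝓞 K)] (n : 𝓞 K) : Prop where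
  galois : IsGalois K F
  abelian : ∀ s t : F ≃ₐ[K] F, s * t = t * s
  reciprocity : ∃ (𝔣 : ((F ≃ₐ[K] F) →* ℂˣ) → Ideal (𝓞 K)) (χ : ((F ≃ₐ[K] F) →* ℂˣ) → 𝓞 K → ℂ),
    (∀ ψ, IsCharacter (𝔣 ψ) (χ ψ)) ∧ (∀ ψ, Corresponds F ψ (𝔣 ψ) (χ ψ)) ∧
    (∀ ψ, ∀ v : HeightOneSpectrum (𝓞 K), 𝔣 ψ ≤ v.asIdeal → n ∉ v.asIdeal) ∧
    ConductorDiscriminantFormula F 𝔣

end extension

section motive

variable {F : Type} [Field F] [NumberField F] [Algebra K F] {k : ℕ}

open Classical in
/-- The mean of `ρ` over the Frobenius automorphisms at the place `u` above `v`: this is the action of the Frobenius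
automorphism on the invariants `V^I` of the inertia group `I` of `u`, and zero on the complement of `V^I`. -/
noncomputable def frobMatrix (ρ : (F ≃ₐ[K] F) →* Matrix (Fin k) (Fin k) ℚ) (v : HeightOneSpectrum (𝓞 K))
    (u : HeightOneSpectrum (𝓞 F)) : Matrix (Fin k) (Fin k) ℂ :=
  (Nat.card (FrobSet F v u) : ℂ)⁻¹ •
    ∑ t : F ≃ₐ[K] F, if t ∈ FrobSet F v u then (ρ t).map (algebraMap ℚ ℂ) else 0

/-- The Euler factor at `v` of `L(N(ρ), s)`: `det(P_v(N(v)^(-1-s) φ_v))⁻¹`, where `P_v` is the local polynomial of `E` at `v`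
(Mathlib's `WeierstrassCurve.localPolynomial`) and `φ_v` is the matrix of the Frobenius automorphism. -/
noncomputable def eulerFactor (a b : 𝓞 K) (ρ : (F ≃ₐ[K] F) →* Matrix (Fin k) (Fin k) ℚ)
    (v : HeightOneSpectrum (𝓞 K)) (u : HeightOneSpectrum (𝓞 F)) (s : ℂ) : ℂ :=
  ((Polynomial.aeval ((Ideal.absNorm v.asIdeal : ℂ) ^ (-(1 + s)) • frobMatrix ρ v u)
    ((((curve (a : K) (b : K)).baseChange (v.adicCompletion K)).localPolynomial
      (v.adicCompletionIntegers K)).map (Int.castRingHom ℂ))).det)⁻¹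

/-- `x = L(N(ρ), 0)`: the value at `0` of an analytic continuation of the Euler product over the places `v` of `K`
(with a place `u v` of `F` above `v`) from `Re s > 1` to a connected open set containing `0`. -/
def CentralValue (a b : 𝓞 K) (ρ : (F ≃ₐ[K] F) →* Matrix (Fin k) (Fin k) ℚ) (x : ℂ) : Prop :=
  ∃ (u : HeightOneSpectrum (𝓞 K) → HeightOneSpectrum (𝓞 F)) (U : Set ℂ) (Φ : ℂ → ℂ),
    (∀ v, (u v).asIdeal.comap (algebraMap (𝓞 K) (𝓞 F)) = v.asIdeal) ∧
    IsOpen U ∧ IsConnected U ∧ {s : ℂ | (1 : ℝ) < s.re} ⊆ U ∧ (0 : ℂ) ∈ U ∧ AnalyticOnNhd ℂ Φ U ∧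
    (∀ s : ℂ, (1 : ℝ) < s.re → HasProd (fun v => eulerFactor a b ρ v (u v) s) (Φ s)) ∧ Φ 0 = x

/-- `(V ⊗ F)^Gal(F/K)`: the vectors `x ∈ F^k` with `ρ(g) g(x) = x` for all `g ∈ Gal(F/K)`. -/
def deRham (ρ : (F ≃ₐ[K] F) →* Matrix (Fin k) (Fin k) ℚ) : Set (Fin k → F) :=
  {x | ∀ (g : F ≃ₐ[K] F) (i : Fin k), ∑ j, (ρ g i j : F) * g (x j) = x i}

/-- `B` is a rational basis, with `2k` elements, of `(V ⊗ F)^Gal(F/K)`. -/
structure IsRationalBasis (ρ : (F ≃ₐ[K] F) →* Matrix (Fin k) (Fin k) ℚ)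
    (B : Fin k × Fin 2 → Fin k → F) : Prop where
  mem : ∀ l, B l ∈ deRham ρ
  independent : LinearIndependent ℚ B
  span : ∀ x ∈ deRham ρ, x ∈ Submodule.span ℚ (Set.range B)

/-- The matrix of the coordinates of the basis `B` in `ℂ^k × ℂ^k`, by the embedding `ν` and its conjugate. -/
noncomputable def deRhamMatrix (ν : F →+* ℂ) (B : Fin k × Fin 2 → Fin k → F) :
    Matrix (Fin k × Fin 2) (Fin k × Fin 2) ℂ :=
  Matrix.of fun p l => if p.2 = 0 then ν (B l p.1) else (starRingEnd ℂ) (ν (B l p.1))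

/-- The matrix of the coordinates in `ℂ^k × ℂ^k` of the basis `γ_j ⊗ e_p` of `H₁(E^σ(ℂ), ℚ) ⊗ V`, where `w j` is
the period of `γ_j`. -/
noncomputable def bettiMatrix (k : ℕ) (w : Fin 2 → ℂ) : Matrix (Fin k × Fin 2) (Fin k × Fin 2) ℂ :=
  Matrix.of fun p q => if p.1 = q.1 then (if p.2 = 0 then w q.2 else (starRingEnd ℂ) (w q.2)) else 0

/-- `c = c⁺(N(ρ))`: the determinant of the comparison of `N(ρ)_B^+` with `N(ρ)_dR^+`, in rational bases, for an embedding
`ν` of `F` over `σ`, a basis of the lattice of the periods of `dx/(2y)` on `y² = x³ + σ(a) x + σ(b)` (`g₂ = -4 σ(a)`,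
`g₃ = -4 σ(b)`), and a rational basis of `(V ⊗ F)^Gal(F/K)`. -/
def IsPeriod (σ : K →+* ℂ) (a b : K) (ρ : (F ≃ₐ[K] F) →* Matrix (Fin k) (Fin k) ℚ) (c : ℂ) : Prop :=
  ∃ (ν : F →+* ℂ) (L : PeriodPair) (B : Fin k × Fin 2 → Fin k → F),
    (∀ x : K, ν (algebraMap K F x) = σ x) ∧ L.g₂ = -4 * σ a ∧ L.g₃ = -4 * σ b ∧ IsRationalBasis ρ B ∧
    c = (bettiMatrix k ![L.ω₁, L.ω₂]).det / (deRhamMatrix ν B).det

/-- Deligne's conjecture for `N(ρ)`: `L(N(ρ), 0) ∈ ℚ c⁺(N(ρ))`. -/
def Deligne (σ : K →+* ℂ) (a b : 𝓞 K) (ρ : (F ≃ₐ[K] F) →* Matrix (Fin k) (Fin k) ℚ) : Prop :=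
  ∀ x c : ℂ, CentralValue a b ρ x → IsPeriod σ (a : K) (b : K) ρ c → ∃ q : ℚ, x = q * c

/-- Deligne's conjecture for `N(ρ)`, and `L(N(ρ), 0) ≠ 0`. -/
def DeligneNonzero (σ : K →+* ℂ) (a b : 𝓞 K) (ρ : (F ≃ₐ[K] F) →* Matrix (Fin k) (Fin k) ℚ) : Prop :=
  ∃ (x c : ℂ) (q : ℚ), CentralValue a b ρ x ∧ IsPeriod σ (a : K) (b : K) ρ c ∧ x ≠ 0 ∧ x = q * c

end motive

end field

section proof

/-- the trivial extension -/
lemma self_ext {K : Type} [Field K] [NumberField K] [IsPrincipalIdealRing (𝓞 K)] (n : 𝓞 K) :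
    IsAbelianExtension K n := by
  have h1 : ∀ t : K ≃ₐ[K] K, t = 1 := fun t => AlgEquiv.ext fun x => t.commutes x
  refine ⟨inferInstance, fun s t => by rw [h1 s, h1 t], fun _ => ⊤, fun _ _ => 1, fun ψ => ?_, fun ψ => ?_,
    fun ψ v hv => ?_, fun L => ?_⟩
  · refine ⟨top_ne_bot, rfl, fun x y => (mul_one 1).symm, fun x => ?_, fun x y _ => rfl, fun u _ => rfl,
      fun 𝔡 h𝔡 => absurd h𝔡 not_top_lt⟩
    constructor
    · intro h2
      exact absurd h2 one_ne_zero
    · rintro ⟨v, hv, -⟩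
      exact absurd (top_le_iff.1 hv) v.isPrime.ne_top
  · refine ⟨fun v hv => absurd (top_le_iff.1 hv) v.isPrime.ne_top, fun v _ u t _ => ?_⟩
    rw [h1 t, map_one]
    rfl
  · exact absurd (top_le_iff.1 hv) v.isPrime.ne_top
  · have hL : L = ⊥ := by
      rw [eq_bot_iff]
      intro x _
      exact IntermediateField.mem_bot.2 ⟨x, rfl⟩
    subst hL
    have e1 : discr (⊥ : IntermediateField K K) = discr K :=
      discr_eq_discr_of_ringEquiv _ (IntermediateField.botEquiv K K).toRingEquiv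
    rw [e1, IntermediateField.finrank_bot, pow_one]
    simp

lemma rat_gcd {τ : ℝ} (hτ : 0 < τ) {d₁ d₂ d : ℕ} {r₁ r₂ : ℚ} (h1 : τ ^ d₁ = r₁) (h2 : τ ^ d₂ = r₂)
    (h : d₁.gcd d₂ ∣ d) : ∃ r : ℚ, τ ^ d = r := by
  obtain ⟨k, rfl⟩ := h
  refine ⟨(r₁ ^ (d₁.gcdA d₂) * r₂ ^ (d₁.gcdB d₂)) ^ k, ?_⟩
  rw [pow_mul]
  push_cast
  congr 1
  rw [← h1, ← h2, ← zpow_natCast τ (d₁.gcd d₂), Nat.gcd_eq_gcd_ab, zpow_add₀ hτ.ne', _root_.zpow_mul, _root_.zpow_mul,
    zpow_natCast, zpow_natCast]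

end proof

open scoped Classical in
/-- **Theorem.** Let `K` be an imaginary quadratic field of class number one, `E : y² = x³ + a x + b` an elliptic
curve over `K` with the Bianchi newform `f` of level `(n)`.  Let `F/K` run over the finite abelian extensions
of conductor prime to `n`, and `ρ` over the rational representations of `Gal(F/K)`, of any dimension `k`.

1. `L(N(ρ), s)` has a continuation to `s = 0`.
2. There is one constant `τ > 0` with `L(N(ρ), 0) ∈ ℚ c⁺(N(ρ)) τ^k` for all `F` and `ρ`.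
3. If Deligne's conjecture is true for `N(ρ₁)` and for `N(ρ₂)`, with values `≠ 0`, then it is true for all `N(ρ)` such
   that `gcd(k₁, k₂)` divides `k`.
4. If it is true for the motive `Res_{K/ℚ} h¹(E)(1)` (`F = K`, `ρ = 1`), and `L(E/K, 1) ≠ 0`, then it is true for all
   `N(ρ)`. -/
theorem result (K : Type) [Field K] [NumberField K] [IsPrincipalIdealRing (𝓞 K)] (σ : K →+* ℂ)
    (δ : K) (hK : IsFieldData K σ δ) (a b n : 𝓞 K) (_hΔ : 4 * a ^ 3 + 27 * b ^ 2 ≠ 0)
    (c : Ideal (𝓞 K) → ℂ) (hf : IsNewform σ δ n c) (hE : IsNewformOf a b n c) :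
    (∀ (F : Type) [Field F] [NumberField F] [Algebra K F], IsAbelianExtension F n →
      ∀ (k : ℕ) (ρ : (F ≃ₐ[K] F) →* Matrix (Fin k) (Fin k) ℚ), ∃ x, CentralValue a b ρ x) ∧
    (∃ τ : ℝ, 0 < τ ∧ ∀ (F : Type) [Field F] [NumberField F] [Algebra K F], IsAbelianExtension F n →
      ∀ (k : ℕ) (ρ : (F ≃ₐ[K] F) →* Matrix (Fin k) (Fin k) ℚ) (x cp : ℂ),
        CentralValue a b ρ x → IsPeriod σ (a : K) (b : K) ρ cp → ∃ q : ℚ, x = q * (cp * τ ^ k)) ∧
    (∀ (F₁ F₂ F : Type) [Field F₁] [NumberField F₁] [Algebra K F₁] [Field F₂] [NumberField F₂]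
      [Algebra K F₂] [Field F] [NumberField F] [Algebra K F],
      IsAbelianExtension F₁ n → IsAbelianExtension F₂ n → IsAbelianExtension F n →
      ∀ (k₁ k₂ k : ℕ) (ρ₁ : (F₁ ≃ₐ[K] F₁) →* Matrix (Fin k₁) (Fin k₁) ℚ)
        (ρ₂ : (F₂ ≃ₐ[K] F₂) →* Matrix (Fin k₂) (Fin k₂) ℚ) (ρ : (F ≃ₐ[K] F) →* Matrix (Fin k) (Fin k) ℚ),
      DeligneNonzero σ a b ρ₁ → DeligneNonzero σ a b ρ₂ → k₁.gcd k₂ ∣ k → Deligne σ a b ρ) ∧
    (DeligneNonzero σ a b (1 : (K ≃ₐ[K] K) →* Matrix (Fin 1) (Fin 1) ℚ) →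
      ∀ (F : Type) [Field F] [NumberField F] [Algebra K F], IsAbelianExtension F n →
      ∀ (k : ℕ) (ρ : (F ≃ₐ[K] F) →* Matrix (Fin k) (Fin k) ℚ), Deligne σ a b ρ) := by
  classical
  have h : K4H55.BI.IQ K σ δ := ⟨hK.quadratic, hK.imaginary, inferInstance, hK.different⟩
  have hf' : K4H55.BI.BF σ δ n c := ⟨hf.level, hf.zero, hf.one, hf.bound, hf.good, hf.bad,
    hf.invariant, hf.fricke⟩
  obtain ⟨ω, hω', hω⟩ := hf.cyclic
  -- the local factors
  have hint : ∀ v : HeightOneSpectrum (𝓞 K), ∃ m : ℤ, c v.asIdeal = m := by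
    intro v
    have h2 := hE v
    have h4 := congrArg (fun p => Polynomial.coeff p 1) h2
    simp only [Polynomial.coeff_map, Polynomial.coeff_add, Polynomial.coeff_sub,
      Polynomial.coeff_C_mul, Polynomial.coeff_X_pow, Polynomial.coeff_X, Polynomial.coeff_one] at h4
    norm_num at h4
    refine ⟨-(((curve (a : K) (b : K)).baseChange (v.adicCompletion K)).localPolynomial
      (v.adicCompletionIntegers K)).coeff 1, ?_⟩
    push_cast
    rw [h4, neg_neg]
  obtain ⟨τ, hτ, hfin⟩ := L7h82.RL.fin2 L7h60.RL.s_EUL L7h65.RL2.s_EXC h hf' (a := (a : K)) (b := (b : K)) hint hω' hω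
  have key : ∀ (F : Type) [Field F] [NumberField F] [Algebra K F], IsAbelianExtension F n →
      ∀ (k : ℕ) (ρ : (F ≃ₐ[K] F) →* Matrix (Fin k) (Fin k) ℚ), (∃ x, CentralValue a b ρ x) ∧
      ∀ (x cp : ℂ), CentralValue a b ρ x → IsPeriod σ (a : K) (b : K) ρ cp → ∃ q : ℚ, x = q * (cp * τ ^ k) := by
    intro F _ _ _ hF k ρ
    have := hF.galois
    obtain ⟨𝔣, χ, hχ, hc, hn, hd⟩ := hF.reciprocity
    have hR : ∀ ψ, L7h82.RL.RC ψ (𝔣 ψ) (χ ψ) := fun ψ => ⟨⟨(hχ ψ).conductor, (hχ ψ).one, (hχ ψ).mul,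
      (hχ ψ).zero, (hχ ψ).periodic, (hχ ψ).units, (hχ ψ).primitive⟩,
      fun v hv u hu => (hc ψ).ramified v hv ⟨u, hu⟩,
      fun v hv u hu t ht => (hc ψ).frobenius v hv ⟨u, hu⟩ t ht⟩
    obtain ⟨Λ, k1, k2, k3⟩ := hfin F hF.abelian 𝔣 χ hR hn hd k ρ
    have hprod : ∀ u : HeightOneSpectrum (𝓞 K) → HeightOneSpectrum (𝓞 F),
        (∀ v, (u v).asIdeal.comap (algebraMap (𝓞 K) (𝓞 F)) = v.asIdeal) → ∀ s : ℂ, 1 < s.re →
        HasProd (fun v => eulerFactor a b ρ v (u v) s) (Λ (1 + s)) := by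
      intro u hu s hs
      exact k2 _ hE u hu (1 + s) (by rw [Complex.add_re, Complex.one_re]; linarith)
    constructor
    · choose u hu using fun v : HeightOneSpectrum (𝓞 K) => L7h23.RL.exists_above (F := F) v
      refine ⟨Λ (1 + 0), u, Set.univ, fun s => Λ (1 + s), hu, isOpen_univ, isConnected_univ, Set.subset_univ _,
        Set.mem_univ _, ?_, hprod u hu, rfl⟩
      exact (k1.comp (differentiable_id.const_add 1)).differentiableOn.analyticOnNhd isOpen_univ
    · rintro x cp ⟨u, U, Φ, hu, hUo, hUc, hUs, hU0, hΦ, hΦp, rfl⟩ ⟨ν, L, B, hν, hg2, hg3, hB, rfl⟩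
      have e1 : Set.EqOn Φ (fun s => Λ (1 + s)) U := by
        refine hΦ.eqOn_of_preconnected_of_eventuallyEq
          ((k1.comp (differentiable_id.const_add 1)).differentiableOn.analyticOnNhd isOpen_univ |>.mono
            (Set.subset_univ U)) hUc.isPreconnected (z₀ := 2) (hUs (by norm_num)) ?_
        have ho : IsOpen {s : ℂ | (1 : ℝ) < s.re} := isOpen_lt continuous_const Complex.continuous_re
        filter_upwards [ho.mem_nhds (show (2 : ℂ) ∈ {s : ℂ | (1 : ℝ) < s.re} by norm_num)] with s hs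
        exact (hΦp s hs).unique (hprod u hu s hs)
      have e2 : Φ 0 = Λ 1 := by
        have := e1 hU0
        simpa using this
      obtain ⟨q, hq⟩ := k3 ν hν L hg2 hg3 B ⟨hB.mem, hB.independent, hB.span⟩
      exact ⟨q, by rw [e2]; exact hq⟩
  have hrat : ∀ (F : Type) [Field F] [NumberField F] [Algebra K F], IsAbelianExtension F n →
      ∀ (k : ℕ) (ρ : (F ≃ₐ[K] F) →* Matrix (Fin k) (Fin k) ℚ),
      DeligneNonzero σ a b ρ → ∃ r : ℚ, τ ^ k = r := by
    rintro F _ _ _ hF k ρ ⟨x, cp, q, hx, hcp, hx0, hxq⟩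
    obtain ⟨q', hq'⟩ := (key F hF k ρ).2 x cp hx hcp
    have hcp0 : cp ≠ 0 := by
      rintro rfl
      exact hx0 (by rw [hxq, mul_zero])
    have h1 : (q : ℂ) = q' * τ ^ k := by
      apply mul_left_cancel₀ hcp0
      have : (q : ℂ) * cp = q' * (cp * τ ^ k) := by rw [← hxq, hq']
      linear_combination this
    have h1' : (q : ℝ) = q' * τ ^ k := by exact_mod_cast h1
    have hq0 : (q' : ℝ) ≠ 0 := by
      intro h0
      apply hx0
      rw [hq', show ((q' : ℚ) : ℂ) = 0 by exact_mod_cast h0, zero_mul]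
    refine ⟨q / q', ?_⟩
    push_cast
    rw [eq_div_iff hq0, h1']
    ring
  have hthree : ∀ (F₁ F₂ F : Type) [Field F₁] [NumberField F₁] [Algebra K F₁] [Field F₂] [NumberField F₂]
      [Algebra K F₂] [Field F] [NumberField F] [Algebra K F],
      IsAbelianExtension F₁ n → IsAbelianExtension F₂ n → IsAbelianExtension F n →
      ∀ (k₁ k₂ k : ℕ) (ρ₁ : (F₁ ≃ₐ[K] F₁) →* Matrix (Fin k₁) (Fin k₁) ℚ)
        (ρ₂ : (F₂ ≃ₐ[K] F₂) →* Matrix (Fin k₂) (Fin k₂) ℚ) (ρ : (F ≃ₐ[K] F) →* Matrix (Fin k) (Fin k) ℚ),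
      DeligneNonzero σ a b ρ₁ → DeligneNonzero σ a b ρ₂ → k₁.gcd k₂ ∣ k → Deligne σ a b ρ := by
    intro F₁ F₂ F _ _ _ _ _ _ _ _ _ h1 h2 hF k₁ k₂ k ρ₁ ρ₂ ρ r1 r2 hd x cp hx hcp
    obtain ⟨q1, hq1⟩ := hrat F₁ h1 k₁ ρ₁ r1
    obtain ⟨q2, hq2⟩ := hrat F₂ h2 k₂ ρ₂ r2
    obtain ⟨r, hr⟩ := rat_gcd hτ hq1 hq2 hd
    obtain ⟨q, hq⟩ := (key F hF k ρ).2 x cp hx hcp
    refine ⟨q * r, ?_⟩
    have hr' : (τ : ℂ) ^ k = (r : ℂ) := by exact_mod_cast congrArg (fun t : ℝ => (t : ℂ)) hr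
    rw [hq, hr']
    push_cast
    ring
  refine ⟨fun F _ _ _ hF k ρ => (key F hF k ρ).1, ⟨τ, hτ, fun F _ _ _ hF k ρ => (key F hF k ρ).2⟩, hthree, ?_⟩
  intro hK' F _ _ _ hF k ρ
  exact hthree K K F (self_ext n) (self_ext n) hF 1 1 k 1 1 ρ hK' hK' (one_dvd _)

end Pool.Agent.Results.MP_b696eb_nt.OneConstantForAllTwists
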