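import Pool.Agent.L7h45.DL.Tw
import Pool.Agent.R389.RatMain2
import Pool.Agent.R389.TwoMain

set_option autoImplicit false

/-!
# Deligne's conjecture for Artin twists: reduction to the abelian twists, order at most two

Let `F/K` be a finite Galois extension of number fields with group `G`, let `M` be a motive over `K`
and let `c` be a critical point of `M` and of its twists `M ⊗ ρ` by the representations `ρ` of `G`.
Deligne's conjecture for `M ⊗ ρ` at `c` is much more accessible when `ρ` is monomial, i.e. induced
from a linear character of a subgroup: then it is the conjecture for the twist of `M` by an abelian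
character over an intermediate field. (For the motive `M` of an algebraic Hecke character, for
instance `h¹` of a CM elliptic curve, the conjecture for these twists is a theorem of Blasius and
Harder.) Brauer's induction theorem reduces the conjecture for all `ρ` to the monomial `ρ` as long
as the values for the monomial `ρ` are not zero; when they vanish it says nothing. The theorem below
treats zeros: it is an unconditional reduction of the conjecture for all `ρ` to the monomial `ρ`
when `L(M/F, s)` vanishes at `c` to order at most two.
-/

namespace Pool.Agent.Results.MP_b696eb_nt.OrderAtMostTwo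

open Pool.Agent.H541R3.ART Pool.Agent.R389 Pool.Agent.L7h45.DL Filter Topology

/-- **Theorem.** Let `E` be a number field with a primitive root of unity of order `exp(G)`, let `T`
be the L-functions and the periods of the twists of `M` and let `deg χ = χ 1`, so that
`∏ L(M ⊗ χ, s) ^ deg χ` is the L-function of `M` over `F`.

(1) (Coefficients in `E`.) Let the order of vanishing at `c` of `L(M/F, s)` be at most two for one
embedding `τ₀` of `E`. Assume that for no subgroup `H` with a quotient isomorphic to the quaternion
group of order eight the twist by the representation induced from the representation of degree two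
of this quotient has a simple zero at `c`. Then Deligne's conjecture holds for the twists by all
representations of `G` if and only if it holds for the abelian twists over the
intermediate fields.

(2) (Rational coefficients.) Let `M` have rational coefficients, let `L(M/F, s)` vanish at `c` to
order at most two and let the conjecture hold for the abelian twists. Let `ρ` be a
representation of `G` over `ℚ` such that `c` is not a pole of `L(M ⊗ ρ, s)`, and let `Ω` be the
period of `M ⊗ ρ`, which is the product of the periods of the constituents up to an element `u`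
of `E`. Then `L(M ⊗ ρ, c)` lies in `ℚ Ω`. (There is no condition on quaternion quotients.) -/
theorem result (G : Type) [Group G] [Finite G] (E : Type) [Field E] [NumberField E] (c : ℂ)
    (ζ : E) (hζ : IsPrimitiveRoot ζ (Monoid.exponent G))
    (deg : (G → ℂ) → ℕ) (hdeg : ∀ χ ∈ Irr G, χ 1 = deg χ) (T : Twists G E c) :
    (∀ τ₀ : E →+* ℂ, T.order τ₀ deg ≤ 2 →
      (∀ (H : Subgroup G) (f : H →* QuaternionGroup 2), Function.Surjective f →
        ∀ m : (G → ℂ) → ℕ, IsDecomp (ind H (fun h => Pool.Agent.H302R2.quatChar (f h))) m →
          T.order τ₀ m ≠ 1) →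
      (T.All ↔ T.Abelian)) ∧
    (T.Rational → T.Abelian → ∀ τ₀ : E →+* ℂ, T.order τ₀ deg ≤ 2 →
      ∀ (V : Type) [AddCommGroup V] [Module ℚ V] [FiniteDimensional ℚ V]
        (ρ : Representation ℚ G V) (m : (G → ℂ) → ℕ),
        IsDecomp (fun g => ((ρ.character g : ℚ) : ℂ)) m → 0 ≤ T.order τ₀ m →
        ∀ (Ω : ℂ) (u : E), (∀ τ : E →+* ℂ, ∏ᶠ χ ∈ Irr G, T.P τ χ ^ m χ = τ u * Ω) →
        ∃ q : ℚ, Tendsto (fun s => ∏ᶠ χ ∈ Irr G, T.L τ₀ χ s ^ m χ) (𝓝[≠] c) (𝓝 (q * Ω))) := by
  refine ⟨?_, ?_⟩
  · intro τ₀ hz hq
    refine ⟨fun h => h.abelian, fun h => ?_⟩
    intro V _ _ _ ρ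
    exact main_two hζ T.mero T.per h τ₀ hdeg hz hq ρ
  · intro hR hA τ₀ hz V _ _ _ ρ m hm hpole Ω u hΩ
    have hLe : T.L = fun _ => T.L τ₀ := funext fun τ => hR τ τ₀
    refine main_rat' (ℓ := T.L τ₀) (P := T.P) (c := c) hζ (T.mero τ₀) T.per ?_ hdeg hz ρ hm
      hpole hΩ
    intro U ψ
    have h := hA U ψ
    unfold Twists.AbelianAt at h
    rwa [hLe] at h

end Pool.Agent.Results.MP_b696eb_nt.OrderAtMostTwo
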